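import Pool.Agent.helper40.SU.SpecB

set_option autoImplicit false

/-! # su:MNK. The quadratic form of a disjoint union -/

namespace Pool.Agent.SU

open Finset

theorem MNK_lin {α β ι : Type} (A : Finset α) (B : Finset β) (I : Finset ι) (w : α → ℝ) (v : β → ℝ)
    (b : ℝ) (c : ι → ℝ) (φ : ι → α → β → ℝ) :
    ∑ j ∈ A, w j * ∑ g ∈ B, v g * (b * ∑ i ∈ I, c i * φ i j g) =
      b * ∑ i ∈ I, c i * ∑ j ∈ A, w j * ∑ g ∈ B, v g * φ i j g := by
  simp only [Finset.mul_sum]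
  rw [Finset.sum_congr rfl fun j _ => Finset.sum_comm, Finset.sum_comm]
  refine Finset.sum_congr rfl fun i _ => Finset.sum_congr rfl fun j _ =>
    Finset.sum_congr rfl fun g _ => ?_
  ring

theorem MNK_wj (j : ℕ) : 0 ≤ wj j := by
  unfold wj
  have : 0 ≤ ∏ p ∈ j.primeFactors, (p : ℝ) := Finset.prod_nonneg fun p _ => Nat.cast_nonneg p
  positivity

theorem MNK : MNK_stmt := by
  intro q N G η I S hη _hN _hG hdis hpos hQ
  set β : ℕ → ℝ := fun i => ∑ D ∈ S i, cD D with hβd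
  have hcD : ∀ D : ℕ, 0 ≤ cD D := fun D => by unfold cD; positivity
  have hβ : ∀ i, 0 ≤ β i := fun i => Finset.sum_nonneg fun D _ => hcD D
  have hz : ∀ i ∈ I, β i = 0 → ∀ j g, Bj (S i) j g = 0 := by
    intro i hi h0 j g
    have he : S i = ∅ := by
      by_contra hne
      obtain ⟨D, hD⟩ := Finset.nonempty_iff_ne_empty.mpr hne
      have h1 : 0 < cD D := by
        have : (0 : ℝ) < D := by exact_mod_cast (hpos i hi D hD)
        unfold cD
        positivity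
      have h2 : cD D ≤ β i := Finset.single_le_sum (f := cD) (fun D _ => hcD D) hD
      linarith
    unfold Bj
    rw [he, Finset.sum_empty]
  have hpd : (I : Set ℕ).PairwiseDisjoint S := fun i hi i' hi' hne => hdis i hi i' hi' hne
  have hB : ∀ j g, Bj (I.biUnion S) j g = ∑ i ∈ I, Bj (S i) j g := fun j g =>
    Finset.sum_biUnion hpd
  have hb : ∑ D ∈ I.biUnion S, cD D = ∑ i ∈ I, β i := Finset.sum_biUnion hpd
  have hCS : ∀ j g, (Bj (I.biUnion S) j g) ^ 2 ≤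
      (∑ i ∈ I, β i) * ∑ i ∈ I, (β i)⁻¹ * (Bj (S i) j g) ^ 2 := by
    intro j g
    rw [hB]
    refine Finset.sum_sq_le_sum_mul_sum_of_sq_le_mul I (fun i _ => hβ i)
      (fun i _ => mul_nonneg (inv_nonneg.mpr (hβ i)) (sq_nonneg _)) ?_
    intro i hi
    refine le_of_eq ?_
    by_cases h0 : β i = 0
    · rw [hz i hi h0 j g, h0]; ring
    · rw [← mul_assoc, mul_inv_cancel₀ h0, one_mul]
  have h1 : QF q N G (I.biUnion S) ≤ ∑ j ∈ cop q N, wj j * ∑ g ∈ cop q G, 1 / (g : ℝ) *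
      ((∑ i ∈ I, β i) * ∑ i ∈ I, (β i)⁻¹ * (Bj (S i) j g) ^ 2) := by
    unfold QF
    refine Finset.sum_le_sum fun j _ => mul_le_mul_of_nonneg_left
      (Finset.sum_le_sum fun g _ => mul_le_mul_of_nonneg_left (hCS j g) (by positivity)) (MNK_wj j)
  rw [MNK_lin] at h1
  refine h1.trans ?_
  rw [hb, sq, ← mul_assoc, mul_comm (1 + η), mul_assoc]
  refine mul_le_mul_of_nonneg_left ?_ (Finset.sum_nonneg fun i _ => hβ i)
  rw [Finset.mul_sum]
  refine Finset.sum_le_sum fun i hi => ?_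
  have h2 : ∑ j ∈ cop q N, wj j * ∑ g ∈ cop q G, 1 / (g : ℝ) * (Bj (S i) j g) ^ 2 ≤
      (1 + η) * (β i) ^ 2 := hQ i hi
  by_cases h0 : β i = 0
  · rw [h0, inv_zero, zero_mul, mul_zero]
  · calc (β i)⁻¹ * ∑ j ∈ cop q N, wj j * ∑ g ∈ cop q G, 1 / (g : ℝ) * (Bj (S i) j g) ^ 2
        ≤ (β i)⁻¹ * ((1 + η) * (β i) ^ 2) :=
          mul_le_mul_of_nonneg_left h2 (inv_nonneg.mpr (hβ i))
      _ = (1 + η) * β i := by
          field_simp

end Pool.Agent.SU
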